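import Pool.Agent.Lib.MP_21a058_co.Every.RoundT
import Pool.Agent.Lib.MP_21a058_co.Every.Tr
import Pool.Agent.Lib.MP_21a058_co.P.Glue
import Pool.Agent.Lib.MP_21a058_co.Thin.One

/-! MP_21a058_co, swaps, (S): `s` of `t` disjoint spanning trees, all connected inside every member
of a laminar family, with their proportional share of the tails in every member. -/

set_option autoImplicit false
set_option linter.unusedSectionVars false
set_option linter.unusedVariables false

namespace Pool.Agent.Lib.MP_21a058_co.Swap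

open Finset
open Pool.Agent.Lib.MP_21a058_co.P
open Pool.Agent.Lib.MP_21a058_co.Every

section fam

open scoped Classical

variable {V E : Type} [Fintype V]

/-- sets connected on all members have full rank -/
theorem sel_full (L : Thin.Fam V) (v w : E → V) {B H : Finset E} (hBH : B ⊆ H)
    (hB : ∀ Y ∈ L.F, Thin.ConnOn v w B Y) : L.R v w B = L.R v w H := by
  unfold Thin.Fam.R
  refine sum_congr rfl fun Y hY => ?_
  have h1 : L.K v w Y B = L.K v w Y H := by
    apply le_antisymm
    · intro g hg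
      refine ⟨hg.1, hg.2.1, fun e he hv hw => ?_⟩
      by_contra hne
      obtain ⟨e', he', h2, h3, h4⟩ := hB Y hY (univ.filter fun x => g x = g (v e))
        ⟨v e, hv, mem_filter.2 ⟨mem_univ _, rfl⟩⟩
        ⟨w e, hw, fun h => hne (mem_filter.1 h).2.symm⟩
      apply h4
      rw [mem_filter, mem_filter, hg.2.2 e' he' h2 h3]
      exact ⟨fun h => ⟨mem_univ _, h.2⟩, fun h => ⟨mem_univ _, h.2⟩⟩
    · exact L.K_anti v w Y hBH
  unfold Thin.Fam.rk
  rw [h1]

/-- two bases have equally many edges inside a member -/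
theorem sel_inside (L : Thin.Fam V) (v w : E → V) {A B H : Finset E} (hAH : A ⊆ H) (hBH : B ⊆ H)
    (hA : L.R v w A = L.R v w H) (hB : L.R v w B = L.R v w H) (hAc : A.card = L.R v w A)
    (hBc : B.card = L.R v w B) {W : Finset V} (hW : W ∈ L.F) :
    (A.filter fun e => v e ∈ W ∧ w e ∈ W).card = (B.filter fun e => v e ∈ W ∧ w e ∈ W).card := by
  rw [L.card_inside v w A hW, L.card_inside v w B hW]
  refine sum_congr rfl fun Y hY => ?_
  have hY' := (mem_filter.1 hY).1
  rw [L.base_card v w hAc hY', L.base_card v w hBc hY', L.base_rk v w hAH hA hY',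
    L.base_rk v w hBH hB hY']

end fam

variable {V E : Type} [Fintype V] [DecidableEq V] [Fintype E] [DecidableEq E] (a b : E → V)

theorem sel_conn {F : Finset E} {Y : Finset V} (h : ConnOn a b F Y) : Thin.ConnOn a b F Y := by
  intro S h1 h2
  obtain ⟨x, hx, hxS⟩ := h1
  obtain ⟨y, hy, hyS⟩ := h2
  obtain ⟨e, he, h3, h4⟩ := h (Y ∩ S) inter_subset_left ⟨x, mem_inter.2 ⟨hx, hxS⟩⟩
    (fun h5 => hyS (mem_inter.1 (h5 ▸ hy)).2)
  rw [mem_ins] at h3
  refine ⟨e, he, h3.1, h3.2, ?_⟩
  rw [mem_cut, mem_inter, mem_inter] at h4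
  intro h5
  exact h4 ⟨fun h6 => ⟨h3.2, h5.1 h6.2⟩, fun h6 => ⟨h3.1, h5.2 h6.2⟩⟩

theorem sel_conn' {F : Finset E} {Y : Finset V} (h : Thin.ConnOn a b F Y) : ConnOn a b F Y := by
  intro S hS h1 h2
  obtain ⟨x, hx⟩ := h1
  obtain ⟨y, hy, hyS⟩ : ∃ y ∈ Y, y ∉ S := by
    by_contra h3
    push Not at h3
    exact h2 (Subset.antisymm hS h3)
  obtain ⟨e, he, h3, h4, h5⟩ := h S ⟨x, hS hx, hx⟩ ⟨y, hy, hyS⟩
  exact ⟨e, he, (mem_ins a b).2 ⟨h3, h4⟩, (mem_cut a b).2 h5⟩

/-- a tree with `|Y| - 1` edges inside `Y` is connected on `Y` -/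
theorem sel_tree {T : Finset E} (hT : Tree a b T) {Y : Finset V}
    (h : (T ∩ ins a b Y).card + 1 = Y.card) : ConnOn a b T Y := by
  have h1 : Fintype.card V ≤ rk a b T + 1 := by
    have := card_le_of_conn a b hT.1
    rwa [card_univ] at this
  have h2 : T.card ≤ rk a b T := by
    have := hT.2
    omega
  have h3 : rk a b T ≤ rk a b (T ∩ ins a b Y) + (T \ ins a b Y).card := by
    apply rk_le_add_card
    intro e he
    rw [mem_union, mem_inter, mem_sdiff]
    by_cases h4 : e ∈ ins a b Y
    · exact Or.inl ⟨he, h4⟩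
    · exact Or.inr ⟨he, h4⟩
  have h4 : (T \ ins a b Y).card + (T ∩ ins a b Y).card = T.card :=
    card_sdiff_add_card_inter _ _
  have h5 : ConnOn a b (T ∩ ins a b Y) Y := by
    apply conn_of_card_le a b inter_subset_right
    omega
  exact ConnOn.mono inter_subset_left h5

/-- (S): `s` of the `t` trees -/
theorem sel {s t : ℕ} (hst : s ≤ t) (ht : 0 < t) (T : Fin t → Finset E) (hT : Trees a b T)
    (L : Finset (Finset V)) (hne : ∀ Y ∈ L, Y.Nonempty)
    (hlam : ∀ X ∈ L, ∀ Y ∈ L, X ⊆ Y ∨ Y ⊆ X ∨ Disjoint X Y)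
    (hL : ∀ Y ∈ L, ∀ i, (T i ∩ ins a b Y).card + 1 = Y.card) (p : E → V) :
    ∃ C : Fin s → Finset E, Trees a b C ∧ un C ⊆ un T ∧
      (∀ Y ∈ L, ∀ i, (C i ∩ ins a b Y).card + 1 = Y.card) ∧
      ∀ Y ∈ L, t * ((un C).filter fun e => p e ∈ Y).card ≤
        s * ((un T).filter fun e => p e ∈ Y).card + (t - 1) := by
  have e1 : ‹DecidableEq V› = fun x y => Classical.propDecidable (x = y) := Subsingleton.elim _ _
  have e2 : ‹DecidableEq E› = fun x y => Classical.propDecidable (x = y) := Subsingleton.elim _ _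
  subst e1 e2
  classical
  have hV : Nonempty V := by
    have := (hT.1 ⟨0, ht⟩).2
    exact Fintype.card_pos_iff.1 (by omega)
  -- the family
  let L' : Thin.Fam V :=
    { F := L ∪ (insert univ (univ.image fun x : V => ({x} : Finset V)))
      lam := by
        have hone : ∀ (x : V) (Z : Finset V), {x} ⊆ Z ∨ Disjoint {x} Z := by
          intro x Z
          by_cases h : x ∈ Z
          · exact Or.inl (singleton_subset_iff.2 h)
          · exact Or.inr (disjoint_singleton_left.2 h)
        intro X hX Y hY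
        simp only [mem_union, mem_insert, mem_image, mem_univ, true_and] at hX hY
        rcases hX with hX | rfl | ⟨x, rfl⟩
        · rcases hY with hY | rfl | ⟨y, rfl⟩
          · exact hlam X hX Y hY
          · exact Or.inl (subset_univ _)
          · rcases hone y X with h | h
            · exact Or.inr (Or.inl h)
            · exact Or.inr (Or.inr h.symm)
        · exact Or.inr (Or.inl (subset_univ _))
        · rcases hone x Y with h | h
          · exact Or.inl h
          · exact Or.inr (Or.inr h)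
      top := by simp
      sing := by
        intro x
        simp
      ne := by
        intro X hX
        simp only [mem_union, mem_insert, mem_image, mem_univ, true_and] at hX
        rcases hX with hX | rfl | ⟨x, rfl⟩
        · exact hne X hX
        · exact univ_nonempty
        · exact singleton_nonempty x }
  have hLL : ∀ Y ∈ L, Y ∈ L'.F := fun Y hY => mem_union_left _ hY
  -- the trees are connected on the members
  have hTc : ∀ i, ∀ Y ∈ L'.F, Thin.ConnOn a b (T i) Y := by
    intro i Y hY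
    apply sel_conn
    have hY' : Y ∈ L ∪ (insert univ (univ.image fun x : V => ({x} : Finset V))) := hY
    simp only [mem_union, mem_insert, mem_image, mem_univ, true_and] at hY'
    rcases hY' with hY' | rfl | ⟨x, rfl⟩
    · exact sel_tree a b (hT.1 i) (hL Y hY' i)
    · exact (hT.1 i).1
    · intro S hS h1 h2
      exact absurd ((subset_singleton_iff.1 hS).resolve_left h1.ne_empty) h2
  have hR : ∀ i, L'.R a b (T i) = L'.R a b univ := fun i =>
    sel_full L' a b (subset_univ _) (hTc i)
  have hrk : MP21a058.Rk (L'.R a b) := (L'.M a b).toRk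
  have hcard : ∀ i, (T i).card = L'.R a b (T i) := by
    intro i
    obtain ⟨A, hA, hAc, hAr⟩ := hrk.exists_indep (x := T i) le_rfl
    have h1 : Thin.ConnOn a b A univ := L'.base_conn a b hA hAr (hTc i)
    have h2 := card_le_of_conn a b (sel_conn' a b h1)
    have h3 := rk_le_card a b A
    have h4 := (hT.1 i).2
    rw [card_univ] at h2
    have h5 := hrk.le_card (T i)
    omega
  obtain ⟨C, hC, hCd, hCT, hCW⟩ := round_rk hrk (L'.R a b univ) hst ht T
    (fun i => ⟨(hcard i).trans (hR i), hR i⟩) hT.2 (fun J => hrk.mono _ _ (subset_univ J))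
    p L hlam
  have hTu : ∀ Y ∈ L'.F, Thin.ConnOn a b (univ : Finset E) Y := by
    intro Y hY S h1 h2
    obtain ⟨e, -, he⟩ := hTc ⟨0, ht⟩ Y hY S h1 h2
    exact ⟨e, mem_univ _, he⟩
  refine ⟨C, ⟨fun i => ⟨?_, ?_⟩, hCd⟩, hCT, ?_, hCW⟩
  · exact sel_conn' a b (L'.base_conn a b (subset_univ _) (hC i).2 hTu)
  · have h1 := (hT.1 ⟨0, ht⟩).2
    rw [(hC i).1, ← hR ⟨0, ht⟩, ← hcard ⟨0, ht⟩]
    exact h1
  · intro Y hY i
    have h1 := sel_inside L' a b (subset_univ (C i)) (subset_univ (T ⟨0, ht⟩)) (hC i).2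
      (hR ⟨0, ht⟩) ((hC i).1.trans (hC i).2.symm) (hcard ⟨0, ht⟩) (hLL Y hY)
    have h2 : ∀ A : Finset E, (A.filter fun e => a e ∈ Y ∧ b e ∈ Y) = A ∩ ins a b Y := by
      intro A
      ext e
      rw [mem_filter, mem_inter, mem_ins]
    rw [h2, h2] at h1
    rw [h1]
    exact hL Y hY ⟨0, ht⟩

end Pool.Agent.Lib.MP_21a058_co.Swap
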