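import Pool.Agent.Lib.MP_21a058_co.Swap.Extr
import Pool.Agent.Lib.MP_21a058_co.Swap.Sel
import Pool.Agent.Lib.MP_21a058_co.Every.Tails
import Pool.Agent.Lib.MP_21a058_co.Every.Start

/-! (C) The count: `s` of the `t` trees, proportionally on the weak sets. -/

namespace Pool.Agent.Lib.MP_21a058_co.Swap

open Finset
open Pool.Agent.Lib.MP_21a058_co.P Pool.Agent.Lib.MP_21a058_co.Every

/-- the numbers of the count -/
theorem cnt_num {t s u l dR dT inT outT inC outC : ℕ} (hst : s ≤ t) (ht : 0 < t)
    (hT : dT = inT + outT) (hin : inC ≤ inT) (hinT : inT ≤ t)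
    (hround : t * outC ≤ s * outT + (t - 1)) (hcut : 2 * (t + u) ≤ dR + dT) (hu : u ≤ dR)
    (hnum : t * l + t * t + s * (t + u) ≤ 2 * t * (t + u)) :
    l + (inC + outC) ≤ dR + dT := by
  by_contra hcon
  push Not at hcon
  obtain ⟨t', rfl⟩ : ∃ t', t = t' + 1 := ⟨t - 1, by omega⟩
  have h0 : t' + 1 - 1 = t' := by omega
  rw [h0] at hround
  clear h0
  subst hT
  zify at *
  have e1 : (t' + 1 : ℤ) * inC ≤ (t' + 1) * inT :=
    mul_le_mul_of_nonneg_left hin (by positivity)
  have e2 : (s : ℤ) * u ≤ s * dR := mul_le_mul_of_nonneg_left hu (by positivity)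
  have e3 : (t' + 1 : ℤ) * (dR + (inT + outT)) + (t' + 1) ≤ (t' + 1) * (l + (inC + outC)) := by
    have h : (dR : ℤ) + (inT + outT) + 1 ≤ l + (inC + outC) := by linarith
    have := mul_le_mul_of_nonneg_left h (show (0 : ℤ) ≤ t' + 1 by positivity)
    linarith
  have e4 : ((t' + 1 : ℤ) - s) * (2 * (t' + 1 + u) - dR - (t' + 1)) ≤
      ((t' + 1 : ℤ) - s) * outT :=
    mul_le_mul_of_nonneg_left (by linarith) (by linarith)
  nlinarith [e1, e2, e3, e4, hround, hnum]

variable {V E : Type} [Fintype V] [DecidableEq V] [Fintype E] [DecidableEq E] (a b : E → V)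

/-- all the trees are connected on `Y` -/
theorem cnt_ins {t : ℕ} (T : Fin t → Finset E) (hd : ∀ i j, i ≠ j → Disjoint (T i) (T j))
    {Y : Finset V} (h : ∀ i, (T i ∩ ins a b Y).card + 1 = Y.card) :
    (un T ∩ ins a b Y).card + t = t * Y.card := by
  have h1 : (un T ∩ ins a b Y).card = ∑ i, (T i ∩ ins a b Y).card := by
    unfold un
    rw [biUnion_inter, card_biUnion]
    intro i _ j _ hij
    exact (hd i j hij).mono inter_subset_left inter_subset_left
  have h2 : ∑ i, ((T i ∩ ins a b Y).card + 1) = ∑ _i : Fin t, Y.card :=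
    sum_congr rfl fun i _ => h i
  rw [sum_add_distrib, sum_const, sum_const, card_univ, Fintype.card_fin, smul_eq_mul,
    smul_eq_mul, mul_one] at h2
  omega

theorem cnt_cut_compl (Y : Finset V) : cut a b Yᶜ = cut a b Y := by
  ext e
  simp only [mem_cut, mem_compl]
  tauto

theorem main (hV : Nonempty V) {s t u l : ℕ} (hst : s ≤ t) (ht : 0 < t)
    (hl : 2 * l ≤ 3 * u)
    (hnum : t * l + t * t + s * (t + u) ≤ 2 * t * (t + u))
    (hcut : ∀ Y : Finset V, Y.Nonempty → Y ≠ univ → 2 * (t + u) ≤ (cut a b Y).card) :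
    ∃ A : Fin s → Finset E, (∀ i j, i ≠ j → Disjoint (A i) (A j)) ∧
      (∀ i, ConnOn a b (A i) univ) ∧
      ∀ Y : Finset V, Y.Nonempty → Y ≠ univ → l ≤ (cut a b Y \ univ.biUnion A).card := by
  classical
  obtain ⟨r⟩ := id hV
  obtain ⟨T, hT, hu, hlam, hconn⟩ := extremal (a := a) (b := b) hV r (by omega : 0 < t + u) hcut hl
  obtain ⟨p, hp, hpX⟩ := tails a b hV T hT
  obtain ⟨C, hC, hCT, hCL, hround⟩ := sel a b hst ht T hT
    (univ.filter fun Y => Y.Nonempty ∧ r ∉ Y ∧ (cut a b Y \ un T).card < l)
    (by intro X hX; exact (mem_filter.1 hX).2.1)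
    (by
      intro X hX Y hY
      simp only [mem_filter, mem_univ, true_and] at hX hY
      exact hlam X Y hX.2.1 hY.2.1 hX.2.2 hY.2.2)
    (by
      intro Y hY
      simp only [mem_filter, mem_univ, true_and] at hY
      exact hconn Y hY.1 hY.2.1 hY.2.2) p
  refine ⟨C, hC.2, fun i => (hC.1 i).1, ?_⟩
  have hmono : ∀ X : Finset V, (cut a b X \ un T).card ≤ (cut a b X \ un C).card :=
    fun X => card_le_card (sdiff_subset_sdiff (Subset.refl _) hCT)
  -- sets without the root
  have key : ∀ Y : Finset V, Y.Nonempty → r ∉ Y → l ≤ (cut a b Y \ un C).card := by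
    intro X hX hr
    have hXu : X ≠ univ := fun h => hr (h ▸ mem_univ r)
    by_cases hq : (cut a b X \ un T).card < l
    · have hXL : X ∈ univ.filter fun Y => Y.Nonempty ∧ r ∉ Y ∧
          (cut a b Y \ un T).card < l := by
        simp [hX, hr, hq]
      have hr1 := hround X hXL
      have hr2 := hCL X hXL
      rw [start_tail a b p (un C) (fun e he => hp e (hCT he)) X,
        start_tail a b p (un T) hp X] at hr1
      have hT1 := cnt_ins a b T hT.2 (hconn X hX hr hq)
      have hC1 := cnt_ins a b C hC.2 hr2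
      have hD := hpX X
      have hdec : ∀ F : Finset E, (F ∩ cut a b X).card =
          ((F ∩ cut a b X).filter fun e => p e ∉ X).card +
          ((F ∩ cut a b X).filter fun e => p e ∈ X).card := by
        intro F
        rw [add_comm]
        exact (card_filter_add_card_filter_not (s := F ∩ cut a b X)
          (fun e => p e ∈ X)).symm
      have hin : ((un C ∩ cut a b X).filter fun e => p e ∉ X).card ≤
          ((un T ∩ cut a b X).filter fun e => p e ∉ X).card := by
        apply card_le_card
        apply filter_subset_filter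
        exact inter_subset_inter_right hCT
      have hsum : ∀ F : Finset E, (cut a b X \ F).card + (F ∩ cut a b X).card =
          (cut a b X).card := by
        intro F
        rw [inter_comm]
        exact card_sdiff_add_card_inter _ _
      have hcX := hcut X hX hXu
      rw [← hsum (un T)] at hcX
      have hx1 : 1 ≤ X.card := hX.card_pos
      have e1 : t * (un C ∩ ins a b X).card + t * s = s * (un T ∩ ins a b X).card + s * t := by
        have h1 := congrArg (fun z => t * z) hC1
        have h2 := congrArg (fun z => s * z) hT1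
        simp only [Nat.mul_add] at h1 h2
        have h3 : t * (s * X.card) = s * (t * X.card) := by ring
        omega
      have e2 : t * s = s * t := mul_comm t s
      have hround' : t * ((un C ∩ cut a b X).filter fun e => p e ∈ X).card ≤
          s * ((un T ∩ cut a b X).filter fun e => p e ∈ X).card + (t - 1) := by
        rw [Nat.mul_add, Nat.mul_add] at hr1
        omega
      have k1 := cnt_num hst ht (hdec (un T)) hin (by omega) hround' hcX (hu X hX hXu) hnum
      rw [← hdec (un C)] at k1
      have hs1 := hsum (un T)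
      have hs2 := hsum (un C)
      omega
    · exact (not_lt.1 hq).trans (hmono X)
  intro Y hY hYu
  change l ≤ (cut a b Y \ un C).card
  by_cases hr : r ∈ Y
  · rw [← cnt_cut_compl]
    apply key
    · rw [nonempty_iff_ne_empty]
      intro h
      exact hYu (compl_eq_empty_iff Y |>.1 h)
    · simpa using hr
  · exact key Y hY hr

end Pool.Agent.Lib.MP_21a058_co.Swap
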