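import Pool.Agent.Lib.MP_21a058_co.Swap.Num3
import Pool.Agent.Lib.MP_21a058_co.Swap.Cnt

/-! MP_21a058_co: the count with two-sided rounding and trees on both sides. `c` trees are lost
on each side, `d` is the error at a cut. -/

namespace Pool.Agent.Lib.MP_21a058_co.Swap

open Finset
open Pool.Agent.Lib.MP_21a058_co.P Pool.Agent.Lib.MP_21a058_co.Every

/-- the rounding theorem with trees on both sides, for one laminar family -/
def Sel3All (c d : ℕ) : Prop :=
  ∀ (V E : Type) [Fintype V] [DecidableEq V] [Fintype E] [DecidableEq E] (a b : E → V)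
    (s q t : ℕ), s + c + (q + c) = t → ∀ T : Fin t → Finset E, Trees a b T →
    ∀ L : Finset (Finset V), (∀ Y ∈ L, Y.Nonempty) →
    (∀ X ∈ L, ∀ Y ∈ L, X ⊆ Y ∨ Y ⊆ X ∨ Disjoint X Y) →
    (∀ Y ∈ L, ∀ i, (T i ∩ ins a b Y).card + 1 = Y.card) →
    ∃ (C : Fin s → Finset E) (D : Fin q → Finset E), Trees a b C ∧ Trees a b D ∧
      un C ⊆ un T ∧ un D ⊆ un T ∧ Disjoint (un C) (un D) ∧
      ∀ Y ∈ L, t * (un C ∩ cut a b Y).card ≤ (s + c) * (un T ∩ cut a b Y).card + d * t

/-- the numbers of the count -/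
theorem cnt3_num {s t u l c d dR dT dC : ℕ} (hst : s + c ≤ t) (ht : 0 < t)
    (hround : t * dC ≤ (s + c) * dT + d * t) (hcut : 2 * (t + u) ≤ dR + dT) (hu : u ≤ dR)
    (hnum : t * (l + d) + 2 * (t + u) * (s + c) ≤ (s + c) * u + 2 * (t + u) * t) :
    l + dC ≤ dR + dT := by
  by_contra hcon
  push Not at hcon
  obtain ⟨σ, hσ⟩ : ∃ σ, s + c = σ := ⟨_, rfl⟩
  rw [hσ] at hst hround hnum
  clear hσ
  obtain ⟨t', rfl⟩ : ∃ t', t = t' + 1 := ⟨t - 1, by omega⟩
  zify at *
  have e2 : (σ : ℤ) * u ≤ σ * dR := mul_le_mul_of_nonneg_left hu (by positivity)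
  have e3 : (t' + 1 : ℤ) * (dR + dT) + (t' + 1) ≤ (t' + 1) * (l + dC) := by
    have h : (dR : ℤ) + dT + 1 ≤ l + dC := by linarith
    have := mul_le_mul_of_nonneg_left h (show (0 : ℤ) ≤ t' + 1 by positivity)
    linarith
  have e4 : ((t' + 1 : ℤ) - σ) * (2 * (t' + 1 + u) - dR) ≤ ((t' + 1 : ℤ) - σ) * dT :=
    mul_le_mul_of_nonneg_left (by linarith) (by linarith)
  nlinarith [e2, e3, e4, hround, hnum]

/-- **the graph theorem** -/
theorem core3All_of {c d : ℕ} (hc : 0 < c) (hsel : Sel3All c d) : Core3All c d := by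
  intro t u s l l' hst hl' hl hnum V E _ _ _ _ a b hV hcut
  classical
  obtain ⟨r⟩ := id hV
  have ht : 0 < t := by omega
  obtain ⟨q, hq⟩ : ∃ q, s + c + (q + c) = t := ⟨t - (s + 2 * c), by omega⟩
  obtain ⟨T, hT, hu, hlam, hconn⟩ :=
    extremal (a := a) (b := b) hV r (by omega : 0 < t + u) hcut hl'
  obtain ⟨C, D, hC, hD, hCT, hDT, hCD, hround⟩ := hsel V E a b s q t hq T hT
    (univ.filter fun Y => Y.Nonempty ∧ r ∉ Y ∧ (cut a b Y \ un T).card < l')
    (by intro X hX; exact (mem_filter.1 hX).2.1)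
    (by
      intro X hX Y hY
      simp only [mem_filter, mem_univ, true_and] at hX hY
      exact hlam X Y hX.2.1 hY.2.1 hX.2.2 hY.2.2)
    (by
      intro Y hY
      simp only [mem_filter, mem_univ, true_and] at hY
      exact hconn Y hY.1 hY.2.1 hY.2.2)
  refine ⟨C, hC.2, fun i => (hC.1 i).1, ?_⟩
  -- the trees of the other side cross every cut
  have hDcut : ∀ Y : Finset V, Y.Nonempty → Y ≠ univ → q ≤ (un D ∩ cut a b Y).card := by
    intro Y hY hYu
    have h1 : (un D ∩ cut a b Y).card = ∑ i, (D i ∩ cut a b Y).card := by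
      unfold un
      rw [biUnion_inter, card_biUnion]
      intro i _ j _ hij
      exact (hD.2 i j hij).mono inter_subset_left inter_subset_left
    have h2 : ∑ _j : Fin q, 1 ≤ ∑ j : Fin q, (D j ∩ cut a b Y).card :=
      sum_le_sum fun j _ => one_le_cut (hD.1 j) hY hYu
    rw [sum_const, card_univ, Fintype.card_fin, smul_eq_mul, mul_one] at h2
    omega
  -- sets without the root
  have key : ∀ Y : Finset V, Y.Nonempty → r ∉ Y → l ≤ (cut a b Y \ un C).card := by
    intro X hX hr
    have hXu : X ≠ univ := fun h => hr (h ▸ mem_univ r)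
    by_cases hw : (cut a b X \ un T).card < l'
    · have hXL : X ∈ univ.filter fun Y => Y.Nonempty ∧ r ∉ Y ∧
          (cut a b Y \ un T).card < l' := by
        simp [hX, hr, hw]
      have hr1 := hround X hXL
      have hsum : ∀ F : Finset E, (cut a b X \ F).card + (F ∩ cut a b X).card =
          (cut a b X).card := by
        intro F
        rw [inter_comm]
        exact card_sdiff_add_card_inter _ _
      have hcX := hcut X hX hXu
      rw [← hsum (un T)] at hcX
      have k1 := cnt3_num (by omega : s + c ≤ t) ht hr1 hcX (hu X hX hXu) hnum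
      have hs1 := hsum (un T)
      have hs2 := hsum (un C)
      omega
    · push Not at hw
      have h1 : (cut a b X \ un T) ∪ (un D ∩ cut a b X) ⊆ cut a b X \ un C := by
        intro e he
        rcases mem_union.1 he with he | he
        · rw [mem_sdiff] at he ⊢
          exact ⟨he.1, fun h => he.2 (hCT h)⟩
        · rw [mem_inter] at he
          rw [mem_sdiff]
          exact ⟨he.2, fun h => disjoint_left.1 hCD h he.1⟩
      have h2 : Disjoint (cut a b X \ un T) (un D ∩ cut a b X) := by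
        rw [disjoint_left]
        intro e he hf
        exact (mem_sdiff.1 he).2 (hDT (mem_inter.1 hf).1)
      have h3 := card_le_card h1
      rw [card_union_of_disjoint h2] at h3
      have h4 := hDcut X hX hXu
      omega
  intro Y hY hYu
  change l ≤ (cut a b Y \ un C).card
  by_cases hr : r ∈ Y
  · rw [← cnt_cut_compl]
    apply key
    · rw [nonempty_iff_ne_empty]
      intro h
      exact hYu (compl_eq_empty_iff Y |>.1 h)
    · simpa using hr
  · exact key Y hY hr

end Pool.Agent.Lib.MP_21a058_co.Swap
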