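import Pool.Agent.Lib.MP_21a058_co.P.Bridge

/-! MP_21a058_co, all tuples, the numbers of the swap form. -/

namespace Pool.Agent.Lib.MP_21a058_co.Swap

open Finset
open Pool.Agent.Lib.MP_21a058_co.P

/-- The graph theorem for the numbers `t`, `u`, `s`, `l`. -/
def Core (t u s l : ℕ) : Prop :=
  ∀ (V E : Type) [Fintype V] [DecidableEq V] [Fintype E] [DecidableEq E] (a b : E → V),
    Nonempty V →
    (∀ Y : Finset V, Y.Nonempty → Y ≠ univ → 2 * (t + u) ≤ (cut a b Y).card) →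
    ∃ A : Fin s → Finset E, (∀ i j, i ≠ j → Disjoint (A i) (A j)) ∧
      (∀ i, ConnOn a b (A i) univ) ∧
      ∀ Y : Finset V, Y.Nonempty → Y ≠ univ → l ≤ (cut a b Y \ univ.biUnion A).card

/-- The numbers for which the graph theorem is proved. -/
def CoreAll : Prop := ∀ t u s l : ℕ, s ≤ t → 2 * l ≤ 3 * u →
  t * l + t * t + s * (t + u) ≤ 2 * t * (t + u) → Core t u s l

theorem sum_split {r : ℕ} (ks : Fin r → ℕ) (j : Fin r) :
    ∑ i, ks i = (∑ i ∈ univ.erase j, ks i) + ks j := by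
  rw [sum_erase_add _ _ (mem_univ j)]

theorem arrow_core {t u s l : ℕ} (h : Core t u s l) {r : ℕ} (ks : Fin r → ℕ) (j : Fin r)
    (hs : ∑ i ∈ univ.erase j, ks i ≤ s) (hl : ks j ≤ l) : Arrow (2 * (t + u)) ks := by
  refine arrow_of_thin (s := s) (l := l) ?_ ks j hs hl
  intro V E _ _ _ _ a b hV _ hcut
  exact h V E a b hV hcut

/-- all tuples, sharp form: `m (S - m) ≤ u (k_j - u)` with `3 u ≥ 2 k_j` -/
theorem num_m (H : CoreAll) {r : ℕ} (ks : Fin r → ℕ) (j : Fin r) (m u : ℕ)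
    (h1 : 2 * ks j ≤ 3 * u) (h2 : ∑ i, ks i ≤ 2 * m)
    (h3 : m * (∑ i, ks i) + u * u ≤ m * m + u * ks j) : Arrow (2 * m) ks := by
  have hS := sum_split ks j
  set s := ∑ i ∈ univ.erase j, ks i with hs
  set l := ks j with hl
  rw [hS] at h2 h3
  by_cases hm : s + l ≤ m
  · obtain ⟨t, rfl⟩ : ∃ t, m = t + l := ⟨m - l, by omega⟩
    refine arrow_core (H t l s l (by omega) (by omega) ?_) ks j le_rfl le_rfl
    have e1 : s * (t + l) ≤ t * (t + l) := Nat.mul_le_mul_right _ (by omega)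
    nlinarith
  · push Not at hm
    obtain ⟨δ, hδ⟩ : ∃ δ, s + l = m + δ := ⟨s + l - m, by omega⟩
    have hδ0 : 0 < δ := by omega
    have hδm : δ ≤ m := by omega
    have hm0 : 0 < m := by omega
    rw [hδ] at h3
    have h4 : m * δ + u * u ≤ u * l := by nlinarith
    have hmδ : 0 < m * δ := Nat.mul_pos hm0 hδ0
    have hul : u < l := by
      by_contra hh
      push Not at hh
      have : u * l ≤ u * u := Nat.mul_le_mul_left _ hh
      omega
    obtain ⟨v, hv⟩ : ∃ v, l = u + v := ⟨l - u, by omega⟩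
    have h5 : m * δ ≤ u * v := by
      rw [hv] at h4
      nlinarith
    have hum : u ≤ m := by
      by_contra hh
      push Not at hh
      obtain ⟨w, hw⟩ : ∃ w, u = m + w := ⟨u - m, by omega⟩
      have hvw : v + w ≤ δ := by omega
      have e1 : (m + w) * (v + w) ≤ (m + w) * δ := Nat.mul_le_mul_left _ hvw
      have e2 : w * δ ≤ w * m := Nat.mul_le_mul_left _ hδm
      rw [hw] at h5
      nlinarith
    have hδv : δ ≤ v := by
      by_contra hh
      push Not at hh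
      have e1 : m * (v + 1) ≤ m * δ := Nat.mul_le_mul_left _ hh
      have e2 : u * v ≤ m * v := Nat.mul_le_mul_right _ hum
      nlinarith
    obtain ⟨t, rfl⟩ : ∃ t, m = t + u := ⟨m - u, by omega⟩
    have hst : s ≤ t := by omega
    refine arrow_core (H t u s l hst h1 ?_) ks j le_rfl le_rfl
    have e3 : s + l = t + u + δ := hδ
    have e4 : s * (t + u) + l * (t + u) = (t + u + δ) * (t + u) := by
      rw [← e3]
      ring
    nlinarith

/-- all tuples, closed form: `f ≤ S + ⌈√(S² - 8 k_j² / 9)⌉ + 1 + (k_j mod 3)` -/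
theorem num_sqrt (H : CoreAll) {r : ℕ} (ks : Fin r → ℕ) (j : Fin r) (x : ℕ)
    (hx : 9 * (∑ i, ks i) ^ 2 ≤ 9 * x ^ 2 + 8 * (ks j) ^ 2) :
    Arrow ((∑ i, ks i) + x + 1 + ks j % 3) ks := by
  have hS := sum_split ks j
  set S := ∑ i, ks i with hSd
  set l := ks j with hl
  have hlS : l ≤ S := by omega
  obtain ⟨p, ρ, hp, hρ, hr⟩ : ∃ p ρ, l = 3 * p + ρ ∧ l % 3 = ρ ∧ ρ < 3 :=
    ⟨l / 3, l % 3, by omega, rfl, by omega⟩
  rw [hρ]
  have hxl : l ≤ 3 * x := by
    by_contra hh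
    push Not at hh
    have e1 : l * l ≤ S * S := Nat.mul_le_mul hlS hlS
    have e2 : (3 * x) * (3 * x) < l * l := Nat.mul_self_lt_mul_self hh
    nlinarith
  obtain ⟨m, y, hm1, hy, hm2⟩ : ∃ m y, 2 * m = S + y ∧ x + ρ ≤ y ∧ y ≤ x + ρ + 1 :=
    ⟨(S + x + ρ + 1) / 2, 2 * ((S + x + ρ + 1) / 2) - S, by omega, by omega, by omega⟩
  refine arrow_mono (show 2 * m ≤ S + x + 1 + ρ by omega)
    (num_m H ks j m (2 * p + ρ) (by omega) (by omega) ?_)
  rw [← hSd, ← hl]
  -- `S² ≤ y² + 4 u (l - u)`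
  have h4 : S * S ≤ y * y + 4 * ((2 * p + ρ) * p) := by
    have e1 : (x + ρ) * (x + ρ) ≤ y * y := Nat.mul_le_mul hy hy
    rw [hp] at hx hxl
    rcases Nat.eq_zero_or_pos ρ with h0 | h0
    · subst h0
      nlinarith
    · have e2 : ρ * (3 * p + ρ) ≤ ρ * (3 * x) := Nat.mul_le_mul_left _ hxl
      nlinarith
  have h5 : (2 * m) * (2 * m) = (S + y) * (S + y) := by rw [hm1]
  have h6 : (2 * m) * S = (S + y) * S := by rw [hm1]
  rw [hp]
  nlinarith

end Pool.Agent.Lib.MP_21a058_co.Swap
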