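import Pool.Agent.Lib.MP_21a058_co.Swap.Num

/-! MP_21a058_co, all tuples, the numbers of the two-sided form. -/

namespace Pool.Agent.Lib.MP_21a058_co.Swap

open Finset
open Pool.Agent.Lib.MP_21a058_co.P

/-- The numbers for which the two-sided graph theorem is proved. -/
def Core2All : Prop := ∀ t u s l : ℕ, s ≤ t → 2 * l ≤ 3 * u →
  t * (l + 6) + 2 * s * (t + u) ≤ s * u + 2 * t * (t + u) → Core t u s l

/-- all tuples, sharp two-sided form -/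
theorem num2_m (H : Core2All) {r : ℕ} (ks : Fin r → ℕ) (j : Fin r) (m u : ℕ)
    (h1 : 2 * ks j ≤ 3 * u) (h2 : (∑ i, ks i) + u ≤ m + ks j)
    (h3 : m * (2 * u + 2 * (∑ i, ks i) + 6) ≤
      2 * (m * m) + u * ((∑ i, ks i) + 6) + m * ks j) : Arrow (2 * m) ks := by
  have hS := sum_split ks j
  set s := ∑ i ∈ univ.erase j, ks i with hs
  set l := ks j with hl
  rw [hS] at h2 h3
  obtain ⟨t, rfl⟩ : ∃ t, m = t + u := ⟨m - u, by omega⟩
  refine arrow_core (H t u s l (by omega) h1 ?_) ks j le_rfl le_rfl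
  nlinarith

/-- all tuples, closed form: `f ≤ S + k_j / 6 + ⌈√(S (S - k_j) + k_j² / 36)⌉ + 9` -/
theorem num2_sqrt (H : Core2All) {r : ℕ} (ks : Fin r → ℕ) (j : Fin r) (x k : ℕ)
    (hx : 36 * (∑ i, ks i) ^ 2 + (ks j) ^ 2 ≤ 36 * x ^ 2 + 36 * ((∑ i, ks i) * ks j))
    (hk : 6 * (∑ i, ks i) + ks j + 6 * x + 46 ≤ 6 * k) : Arrow k ks := by
  have hS := sum_split ks j
  set S := ∑ i, ks i with hSd
  set l := ks j with hl
  have hlS : l ≤ S := by omega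
  -- `6 x ≥ 6 S - 5 l`
  have hx1 : 6 * S ≤ 6 * x + 5 * l := by
    by_contra hh
    push Not at hh
    obtain ⟨y, hy⟩ : ∃ y, 6 * S = 6 * x + 5 * l + y := ⟨6 * S - (6 * x + 5 * l), by omega⟩
    have hy0 : 0 < y := by omega
    have e1 : (6 * S) * (6 * S) = (6 * x + 5 * l + y) * (6 * x + 5 * l + y) := by rw [hy]
    have e2 : l * l ≤ l * S := Nat.mul_le_mul_left _ hlS
    have e3 : l * (6 * S) = l * (6 * x + 5 * l + y) := by rw [hy]
    nlinarith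
  obtain ⟨m, hm1, hm2⟩ : ∃ m, 2 * m ≤ k ∧ k ≤ 2 * m + 1 := ⟨k / 2, by omega, by omega⟩
  obtain ⟨u, d, hu, hd⟩ : ∃ u d, 3 * u = 2 * l + d ∧ d < 3 :=
    ⟨(2 * l + 2) / 3, 3 * ((2 * l + 2) / 3) - 2 * l, by omega, by omega⟩
  refine arrow_mono hm1 (num2_m H ks j m u (by omega) (by omega) ?_)
  rw [← hSd, ← hl]
  -- `w = 2 N - Q`, `N = 2 m`, `Q = 2 S + 6 + 2 u - l`
  obtain ⟨w, hw⟩ : ∃ w, 4 * m + l = 2 * S + 6 + 2 * u + w :=
    ⟨4 * m + l - (2 * S + 6 + 2 * u), by omega⟩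
  have hw1 : 2 * x + 6 ≤ w := by omega
  have hw2 : (2 * x + 6) * (2 * x + 6) ≤ w * w := Nat.mul_le_mul hw1 hw1
  zify at *
  have ew : (w : ℤ) = 4 * m + l - (2 * S + 6 + 2 * u) := by linarith
  have eu : (u : ℤ) = (2 * l + d) / 3 := by omega
  rcases (show (d : ℤ) = 0 ∨ (d : ℤ) = 1 ∨ (d : ℤ) = 2 by omega) with h0 | h0 | h0 <;>
  · rw [h0] at hu
    rw [ew] at hw2
    nlinarith

/-- all tuples, linear form: `f ≤ 2 S - k_j / 3 + 9` -/
theorem num2_lin (H : Core2All) {r : ℕ} (ks : Fin r → ℕ) (j : Fin r) (k : ℕ)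
    (hk : 6 * (∑ i, ks i) + 25 ≤ 3 * k + ks j) : Arrow k ks := by
  have hS := sum_split ks j
  have hlS : ks j ≤ ∑ i, ks i := by omega
  obtain ⟨x, hx1, hx2⟩ : ∃ x, 2 * (∑ i, ks i) ≤ 2 * x + ks j ∧
      2 * x + ks j ≤ 2 * (∑ i, ks i) + 1 :=
    ⟨(2 * (∑ i, ks i) - ks j + 1) / 2, by omega, by omega⟩
  refine num2_sqrt H ks j x k ?_ (by omega)
  set S := ∑ i, ks i
  set l := ks j
  obtain ⟨y, hy⟩ : ∃ y, 2 * S = y + l := ⟨2 * S - l, by omega⟩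
  have h1 : y ≤ 2 * x := by omega
  have h2 : y * y ≤ (2 * x) * (2 * x) := Nat.mul_le_mul h1 h1
  have h3 : (2 * S) * (2 * S) = (y + l) * (y + l) := by rw [hy]
  have h4 : (2 * S) * l = (y + l) * l := by rw [hy]
  nlinarith

end Pool.Agent.Lib.MP_21a058_co.Swap
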