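import Pool.Agent.Lib.MP_21a058_co.Swap.Res

/-! MP_21a058_co, all tuples, the numbers of the form with trees on both sides. -/

namespace Pool.Agent.Lib.MP_21a058_co.Swap

open Finset
open Pool.Agent.Lib.MP_21a058_co.P

/-- The numbers for which the graph theorem with trees on both sides is proved: `c` trees are
lost on each side, `d` is the error at a cut. -/
def Core3All (c d : ℕ) : Prop := ∀ t u s l l' : ℕ, s + 2 * c ≤ t → 2 * l' ≤ 3 * u →
  l + s + 2 * c ≤ l' + t →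
  t * (l + d) + 2 * (t + u) * (s + c) ≤ (s + c) * u + 2 * (t + u) * t → Core t u s l

/-- all tuples, sharp form: `6 M² + 4 σ M + 2 κ² ≥ 7 M κ + 3 σ κ`, `σ = S - k_j + c`,
`κ = k_j + d`, for `2 (σ + M)` -/
theorem num3_m {c d : ℕ} (hcd : c ≤ d) (H : Core3All c d) {r : ℕ} (ks : Fin r → ℕ)
    (j : Fin r) (M : ℕ) (h1 : 2 * (ks j + d) + c ≤ 3 * M)
    (h2 : 7 * M * (ks j + d) + 3 * ((∑ i ∈ univ.erase j, ks i) + c) * (ks j + d) ≤
      6 * M * M + 4 * ((∑ i ∈ univ.erase j, ks i) + c) * M + 2 * (ks j + d) * (ks j + d)) :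
    Arrow (2 * ((∑ i ∈ univ.erase j, ks i) + c + M)) ks := by
  have hS := sum_split ks j
  set s := ∑ i ∈ univ.erase j, ks i with hs
  set l := ks j with hl
  by_cases hM : M ≤ l + d
  · obtain ⟨v, hv⟩ : ∃ v, l + d = M + v := ⟨l + d - M, by omega⟩
    obtain ⟨e, he⟩ : ∃ e, 3 * M = 2 * (l + d) + e := ⟨3 * M - 2 * (l + d), by omega⟩
    have h3 := arrow_core (H (s + c + e) (2 * v) s l (3 * v) (by omega) (by omega) (by omega) (by
      rw [hv] at h2 ⊢
      have e1 : M = 2 * v + e := by omega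
      subst e1
      nlinarith)) ks j le_rfl le_rfl
    have e2 : 2 * (s + c + e + 2 * v) = 2 * (s + c + M) := by omega
    rw [e2] at h3
    exact h3
  · push Not at hM
    refine num_m coreAll ks j (s + c + M) (ks j) (by omega) (by omega) ?_
    have h4 : ∑ i, ks i ≤ s + c + M := by omega
    have h5 := Nat.mul_le_mul_left (s + c + M) h4
    have h6 : ks j * ks j ≤ ks j * ks j := le_rfl
    omega

/-- all tuples, closed form:
`f ≤ (8 S - k_j + ⌈√(16 S (S - k_j) + k_j²)⌉ + 16 c + 8 d) / 6 + 2` -/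
theorem num3_sqrt {c d : ℕ} (hcd : c ≤ d) (hdc : d ≤ 4 * c) (H : Core3All c d) {r : ℕ}
    (ks : Fin r → ℕ) (j : Fin r) (x k : ℕ)
    (hx : 16 * (∑ i, ks i) ^ 2 + (ks j) ^ 2 ≤ x ^ 2 + 16 * ((∑ i, ks i) * ks j))
    (hk : 8 * (∑ i, ks i) + x + 16 * c + 8 * d + 6 ≤ 6 * k + ks j) : Arrow k ks := by
  have hS := sum_split ks j
  set s := ∑ i ∈ univ.erase j, ks i with hs
  rw [hS] at hx hk
  set l := ks j with hl
  -- `x ≥ 4 s + l`
  have hx1 : 4 * s + l ≤ x := by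
    by_contra hh
    push Not at hh
    have e1 : x * x < (4 * s + l) * (4 * s + l) := Nat.mul_self_lt_mul_self hh
    nlinarith
  obtain ⟨m, hm1, hm2⟩ : ∃ m, 2 * m ≤ k ∧ k ≤ 2 * m + 1 := ⟨k / 2, by omega, by omega⟩
  obtain ⟨M, hM⟩ : ∃ M, m = s + c + M := ⟨m - (s + c), by omega⟩
  subst hM
  refine arrow_mono hm1 (num3_m hcd H ks j M (by omega) ?_)
  rw [← hl, ← hs]
  -- `w = 12 M - (7 κ - 4 σ) ≥ x + 8 c + d`
  obtain ⟨w, hw⟩ : ∃ w, 12 * M + 4 * (s + c) = 7 * (l + d) + w :=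
    ⟨12 * M + 4 * (s + c) - 7 * (l + d), by omega⟩
  have hw1 : x + 8 * c + d ≤ w := by omega
  have hw2 : (x + (8 * c + d)) * (x + (8 * c + d)) ≤ w * w :=
    Nat.mul_le_mul (by omega) (by omega)
  have hw3 : (8 * c + d) * (4 * s + l) ≤ (8 * c + d) * x := Nat.mul_le_mul_left _ hx1
  have hw4 : d * s ≤ 4 * c * s := Nat.mul_le_mul_right _ hdc
  zify at *
  have ew : (w : ℤ) = 12 * M + 4 * (s + c) - 7 * (l + d) := by linarith
  have hkey : 16 * ((s : ℤ) + c) ^ 2 + 16 * (s + c) * (l + d) + (l + d) ^ 2 ≤ w * w := by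
    have hc0 : (0 : ℤ) ≤ c := by positivity
    have hd0 : (0 : ℤ) ≤ d := by positivity
    have hs0 : (0 : ℤ) ≤ s := by positivity
    have hl0 : (0 : ℤ) ≤ l := by positivity
    nlinarith [mul_nonneg hc0 hc0, mul_nonneg hc0 hd0, mul_nonneg hc0 hs0, mul_nonneg hc0 hl0]
  rw [ew] at hkey
  nlinarith

/-- all tuples, linear form: `f ≤ 2 S - k_j / 2 + C` -/
theorem num3_lin {c d : ℕ} (hcd : c ≤ d) (hdc : d ≤ 4 * c) (H : Core3All c d) {r : ℕ}
    (ks : Fin r → ℕ) (j : Fin r) (k : ℕ)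
    (hk : 12 * (∑ i, ks i) + 16 * c + 8 * d + 6 ≤ 6 * k + 3 * ks j) : Arrow k ks := by
  have hS := sum_split ks j
  have hlS : ks j ≤ ∑ i, ks i := by omega
  obtain ⟨x, hx⟩ : ∃ x, 4 * (∑ i, ks i) = x + 2 * ks j :=
    ⟨4 * (∑ i, ks i) - 2 * ks j, by omega⟩
  refine num3_sqrt hcd hdc H ks j x k ?_ (by omega)
  set S := ∑ i, ks i
  set l := ks j
  have h3 : (4 * S) * (4 * S) = (x + 2 * l) * (x + 2 * l) := by rw [hx]
  have h4 : (4 * S) * l = (x + 2 * l) * l := by rw [hx]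
  nlinarith

end Pool.Agent.Lib.MP_21a058_co.Swap
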