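import Pool.Agent.Lib.MP_21a058_co.Swap.Num
import Pool.Agent.Lib.MP_21a058_co.Swap.Cnt

/-! MP_21a058_co, all tuples: the numbers and the graph theorem together. -/

namespace Pool.Agent.Lib.MP_21a058_co.Swap

open Finset
open Pool.Agent.Lib.MP_21a058_co.P

theorem coreAll : CoreAll := by
  intro t u s l hst hl hnum V E _ _ _ _ a b hV hcut
  rcases Nat.eq_zero_or_pos t with rfl | ht
  · obtain rfl : s = 0 := by omega
    refine ⟨fun i => i.elim0, fun i => i.elim0, fun i => i.elim0, fun Y hY hY' => ?_⟩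
    have h1 := hcut Y hY hY'
    have h2 : (univ : Finset (Fin 0)).biUnion (fun i => (i.elim0 : Finset E)) = ∅ := rfl
    rw [h2, sdiff_empty]
    omega
  · exact main a b hV hst ht hl hnum hcut

/-- all tuples, sharp form -/
theorem all_m {r : ℕ} (ks : Fin r → ℕ) (j : Fin r) (m u : ℕ) (h1 : 2 * ks j ≤ 3 * u)
    (h2 : ∑ i, ks i ≤ 2 * m) (h3 : m * (∑ i, ks i) + u * u ≤ m * m + u * ks j) :
    Arrow (2 * m) ks := num_m coreAll ks j m u h1 h2 h3

/-- all tuples, closed form -/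
theorem all_sqrt {r : ℕ} (ks : Fin r → ℕ) (j : Fin r) (x : ℕ)
    (hx : 9 * (∑ i, ks i) ^ 2 ≤ 9 * x ^ 2 + 8 * (ks j) ^ 2) :
    Arrow ((∑ i, ks i) + x + 1 + ks j % 3) ks := num_sqrt coreAll ks j x hx

end Pool.Agent.Lib.MP_21a058_co.Swap
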