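import Pool.Agent.Lib.MP_21a058_co.Swap.Cnt3
import Pool.Agent.Lib.MP_21a058_co.Swap.Res
import Pool.Agent.Lib.MP_21a058_co.Duo.Fin3
import Pool.Agent.Lib.MP_21a058_co.Iter.Iter

/-! MP_21a058_co, all tuples: the numbers and the graph theorems together, in one shot and
iterated, with trees on both sides. -/

namespace Pool.Agent.Lib.MP_21a058_co.Swap

open Finset
open Pool.Agent.Lib.MP_21a058_co.P

theorem core3All : Core3All 7 8 := core3All_of (by norm_num) Duo.sel3All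

/-- all tuples, one shot, closed form -/
theorem all3_sqrt {r : ℕ} (ks : Fin r → ℕ) (j : Fin r) (x k : ℕ)
    (hx : 16 * (∑ i, ks i) ^ 2 + (ks j) ^ 2 ≤ x ^ 2 + 16 * ((∑ i, ks i) * ks j))
    (hk : 8 * (∑ i, ks i) + x + 182 ≤ 6 * k + ks j) : Arrow k ks :=
  num3_sqrt (c := 7) (d := 8) (by norm_num) (by norm_num) core3All ks j x k hx (by omega)

/-- all tuples, iterated, closed form -/
theorem all4_sqrt {r : ℕ} (ks : Fin r → ℕ) (j : Fin r) (k : ℕ)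
    (hk : 6 * (∑ i, ks i) + 16 * Nat.sqrt (ks j) + 129 ≤ 3 * k + 2 * ks j) : Arrow k ks :=
  Iter.num4_sqrt (Iter.iterAll Duo.sel3All (by norm_num) (by norm_num)) ks j k hk

/-- the three forms together -/
theorem all_forms {r : ℕ} (ks : Fin r → ℕ) (j : Fin r) (k : ℕ)
    (h : 6 * (∑ i, ks i) + 16 * Nat.sqrt (ks j) + 129 ≤ 3 * k + 2 * ks j ∨
      (∃ x : ℕ, 16 * (∑ i, ks i) ^ 2 + (ks j) ^ 2 ≤ x ^ 2 + 16 * ((∑ i, ks i) * ks j) ∧
        8 * (∑ i, ks i) + x + 182 ≤ 6 * k + ks j) ∨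
      ∃ m u : ℕ, 2 * m ≤ k ∧ ∑ i, ks i ≤ 2 * m ∧ 2 * ks j ≤ 3 * u ∧
        m * (∑ i, ks i) + u * u ≤ m * m + u * ks j) : Arrow k ks := by
  rcases h with h | ⟨x, h1, h2⟩ | ⟨m, u, h1, h2, h3, h4⟩
  · exact all4_sqrt ks j k h
  · exact all3_sqrt ks j x k h1 h2
  · exact arrow_mono h1 (all_m ks j m u h3 h2 h4)

end Pool.Agent.Lib.MP_21a058_co.Swap
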